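import Pool.Agent.Q116.IC.Enum
import Pool.Agent.Q116.IC.Deg
import Pool.Agent.Q116.IC.Neg

/-!
Index sets of `Π⁰₁` classes with the cardinality in a given set `C`.
-/

set_option autoImplicit false

namespace Pool.Agent.Results.MP_46183d_lc.CardinalityIndexSets

open Pool.Agent.Q116.IC

theorem result : Nonempty Enumeration ∧ ∀ E : Enumeration,
    (∀ C : Set ℕ,
      (C = ∅ → E.I C = ∅) ∧
      (C = {0} → Complete Sigma1 (E.I C)) ∧
      (C.Finite → ¬ C ⊆ {0} → 1 ∉ C → Complete (Diff (changes C)) (E.I C)) ∧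
      (C.Finite → 1 ∈ C → Complete (CoDiff (changes C)) (E.I C)) ∧
      (C.Infinite → (ComputablePred (fun c => c ∈ C) ∨ Sigma1 C ∨ Sigma1 Cᶜ ∨ Sigma2 C ∨
        Sigma2 Cᶜ) → Complete Sigma3 (E.I C)) ∧
      (∀ C₀ ⊆ C, C₀.Infinite → Sigma2 C₀ᶜ → Sigma3 C → Complete Sigma3 (E.I C)) ∧
      (¬ C ⊆ {0} → ManyOneEquiv (fun e => e ∈ E.I C)
        (fun e => (V e).Finite ∧ (V e).ncard + 1 ∈ C))) ∧
    ∃ C : Set ℕ, C.Infinite ∧ Sigma3 C ∧ Sigma3 Cᶜ ∧ ¬ Complete Sigma3 (E.I C) := by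
  refine ⟨enumeration_exists, fun E => ⟨fun C => ⟨?_, ?_, ?_, ?_, ?_, ?_, ?_⟩, not_complete E⟩⟩
  · rintro rfl
    unfold Enumeration.I
    simp
  · rintro rfl
    exact complete_zero E
  · exact fun h1 h2 h3 => complete_fin_not_mem E h1 h2 h3
  · exact fun h1 h2 => complete_fin_mem E h1 h2
  · rintro h (h' | h')
    · refine complete_inf2 E h (Or.inl ⟨fun c _ => c ∈ C, ?_, fun n => by simp⟩)
      exact cp_comp h' Computable.fst
    · exact complete_inf2 E h h'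
  · exact fun C₀ h1 h2 h3 h4 => complete_inf E h4 h1 h2 h3
  · exact fun h => many_one E h

end Pool.Agent.Results.MP_46183d_lc.CardinalityIndexSets
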